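import Pool.Agent.Y519.HB.Last

/-!
# The sign of the Gauss–Bonnet–Chern integrand for block sums and multiply warped types

The classes (`Pool/Agent/Y519/HB/Defs.lean`), for a Euclidean space of dimension `2 m`:

* `FiveBlocks δ R`: the space is an orthogonal sum of any number of blocks of any dimensions,
  `R = ∑ (S_i + S'_i) - ∑ (x_k ∧ y_k)² - δ · (unit tensor)`, where `S_i`, `S'_i` are curvature
  tensors of nonpositive *sectional* curvature living on subspaces of dimension at most five of the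
  block `i`, and each `x_k` and each `y_k` lies in one of the blocks.
* `WarpType δ R`: the tensors of multiply warped type, `∑ S_i + ∑_{i<j} h_ij ∧ k_ij`
  (Kulkarni–Nomizu products of symmetric forms `h_ij` on the block `i` and `k_ij` on the block `j`),
  with blocks of dimension at most five; here the only curvature hypothesis is that the sectional
  curvatures are at most `-δ`.
* `HopfBlocks δ R`: the same with blocks of any dimension whose tensors have the Hopf sign on all
  their even-dimensional subspaces.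

(1) In every even dimension, `(-1)^m` times the Gauss–Bonnet–Chern integrand is at least its value
for constant curvature `-δ`. (2), (3) Integrated forms.
(4) Superadditivity: `(-1)^m gbc (S + T) ≥ (-1)^m gbc S + (-1)^m gbc T` for
`T = - ∑ (x_k ∧ y_k)² - δ · (unit tensor)` if `S` has the Hopf sign on all even-dimensional subspaces
of smaller dimension. (5) In dimension six this holds for every `S` of nonpositive sectional
curvature.
-/

set_option autoImplicit false

namespace Pool.Agent.Results.MP_5a30bb_gt.BlocksAndWarped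

open Pool.Agent.W666.GB Pool.Agent.W669.HD Pool.Agent.Y519.HB

theorem result :
    (∀ (m : ℕ) (V : Type) [NormedAddCommGroup V] [InnerProductSpace ℝ V]
      (e : OrthonormalBasis (Fin m × Bool) ℝ V) (R : V → V → V → V → ℝ) (δ : ℝ),
      0 ≤ δ → HopfBlocks δ R ∨ FiveBlocks δ R ∨ WarpType δ R →
        roundGB m δ ≤ (-1) ^ m * gbc e R) ∧
    (∀ (m : ℕ) (M : Type) [MeasurableSpace M] (μ : MeasureTheory.Measure M) (K : CurvField m M),
      (∀ p, HopfBlocks 0 (K.R p) ∨ FiveBlocks 0 (K.R p) ∨ WarpType 0 (K.R p)) →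
        0 ≤ (-1) ^ m * ∫ p, K.gb p ∂μ) ∧
    (∀ (m : ℕ) (M : Type) [MeasurableSpace M] (μ : MeasureTheory.Measure M)
      [MeasureTheory.IsFiniteMeasure μ] (K : CurvField m M) (δ : ℝ),
      MeasureTheory.Integrable K.gb μ → 0 ≤ δ →
      (∀ p, HopfBlocks δ (K.R p) ∨ FiveBlocks δ (K.R p) ∨ WarpType δ (K.R p)) →
        roundGB m δ * μ.real Set.univ ≤ (-1) ^ m * ∫ p, K.gb p ∂μ) ∧
    (∀ (m : ℕ) (V : Type) [NormedAddCommGroup V] [InnerProductSpace ℝ V]
      (e : OrthonormalBasis (Fin m × Bool) ℝ V) (S T : V → V → V → V → ℝ) (n : ℕ)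
      (x y : Fin n → V) (δ : ℝ), 0 < m → 0 ≤ δ → AlgCurv S →
      (∀ k < m, ∀ (E : Submodule ℝ V) (e : OrthonormalBasis (Fin k × Bool) ℝ E),
        0 ≤ (-1) ^ k * gbc e (fun x y z w : E => S x y z w)) →
      (∀ a b c d, T a b c d = - (∑ k, sqDec (x k) (y k) a b c d) - δ * unitT a b c d) →
      (-1) ^ m * gbc e S + (-1) ^ m * gbc e T ≤ (-1) ^ m * gbc e (addT S T) ∧
        roundGB m δ ≤ (-1) ^ m * gbc e T) ∧
    (∀ (V : Type) [NormedAddCommGroup V] [InnerProductSpace ℝ V]
      (e : OrthonormalBasis (Fin 3 × Bool) ℝ V) (S T : V → V → V → V → ℝ) (n : ℕ)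
      (x y : Fin n → V) (δ : ℝ), 0 ≤ δ → AlgCurv S → (∀ a b, S a b a b ≤ 0) →
      (∀ a b c d, T a b c d = - (∑ k, sqDec (x k) (y k) a b c d) - δ * unitT a b c d) →
      - gbc e S - gbc e T ≤ - gbc e (addT S T) ∧ roundGB 3 δ ≤ - gbc e T) :=
  ⟨fun _ _ _ _ e _ _ hδ h => cls_bound e hδ h,
    fun _ _ _ μ K h => field_cls μ K h,
    fun _ _ _ μ _ K _ hi hδ h => field_clsδ μ K hi hδ h,
    fun _ _ _ _ e _ _ _ _ _ _ hm hδ hS hH hT => mono_super hm e hδ hS hH hT,
    fun _ _ _ e _ _ _ _ _ _ hδ hS hs hT => six_super e hδ hS hs hT⟩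

end Pool.Agent.Results.MP_5a30bb_gt.BlocksAndWarped
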