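import Pool.Agent.Y499.GB.Field

/-!
# The Hopf sign in every even dimension under integral pinching, and under pinching of order `n ^ (-1/2)`

For an algebraic curvature tensor `R` in dimension `n = 2 m` let `-κ` be the mean of its sectional
curvatures (`scal = - κ n (n - 1)`), and let `D` bound the Hilbert-Schmidt distances of `R` and of its Ricci
tensor to those of constant curvature `-κ`. Let `G κ` be `(-1)^m` times the Gauss-Bonnet-Chern integrand for
constant curvature `-κ`. Then, without any smallness assumption,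

`|(-1)^m GB(R) - G κ| ≤ (1/5) G |κ| + (1/(3 m)) G (10⁶ D / n)`.

So the sign `(-1)^m` holds for the integral as soon as the `L^m`-norm of `D` is at most `10⁻⁶ n` times that of
`κ`; there is no pointwise assumption on the curvature (and for even `m` none on the sign of `κ`), and
the constant is explicit in the dimension. If all sectional curvatures are in `[-κ - η, -κ + η]`, then
`D = (4/3) n^(3/2) η` is admissible. So the sign also holds if the sectional curvatures at every point are in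
`[-b, -a]`, `0 < a`, `b - a ≤ (3/4) 10⁻⁶ a / √n`.

The proof is the one of `Pool/Agent/W666/GB/` (a development of the starting repository, for `D ≤ 10⁻⁶ n κ`),
made homogeneous in `Pool/Agent/Y499/GB/`.
-/

set_option autoImplicit false

namespace Pool.Agent.Results.MP_5a30bb_gt.IntegralPinching

open Pool.Agent.W666.GB MeasureTheory

theorem result :
    -- (1) the estimate for an arbitrary algebraic curvature tensor
    (∀ (m : ℕ) (V : Type) [NormedAddCommGroup V] [InnerProductSpace ℝ V]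
      (e : OrthonormalBasis (Fin m × Bool) ℝ V) (R : V → V → V → V → ℝ) (κ D : ℝ),
      0 < m → AlgCurv R → 0 ≤ D → scal e R = -(κ * (2 * m * (2 * m - 1))) →
      devR e R κ ≤ D ^ 2 → devRic e R κ ≤ D ^ 2 →
        |(-1) ^ m * gbc e R - roundGB m κ| ≤
          1 / 5 * roundGB m |κ| + 1 / (3 * m) * roundGB m (10 ^ 6 * D / (2 * m))) ∧
    -- (2) the estimate in terms of the sectional curvatures
    (∀ (m : ℕ) (V : Type) [NormedAddCommGroup V] [InnerProductSpace ℝ V]
      (e : OrthonormalBasis (Fin m × Bool) ℝ V) (R : V → V → V → V → ℝ) (κ η : ℝ),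
      0 < m → AlgCurv R → 0 ≤ η → scal e R = -(κ * (2 * m * (2 * m - 1))) →
      SecIn R (-κ - η) (-κ + η) →
        |(-1) ^ m * gbc e R - roundGB m κ| ≤
          1 / 5 * roundGB m |κ| +
            1 / (3 * m) * roundGB m (4 / 3 * 10 ^ 6 * Real.sqrt (2 * m) * η)) ∧
    -- (3) integral pinching of the curvature tensor
    (∀ (m : ℕ) (M : Type) [MeasurableSpace M] (μ : Measure M) (K : CurvField m M) (κ D : M → ℝ),
      0 < m → Integrable K.gb μ → Integrable (fun p => κ p ^ m) μ →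
      Integrable (fun p => D p ^ m) μ → (Even m ∨ ∀ p, 0 ≤ κ p) →
      (∀ p, 0 ≤ D p ∧ scal (K.e p) (K.R p) = -(κ p * (2 * m * (2 * m - 1))) ∧
        devR (K.e p) (K.R p) (κ p) ≤ D p ^ 2 ∧ devRic (K.e p) (K.R p) (κ p) ≤ D p ^ 2) →
      ∫ p, (10 ^ 6 * D p / (2 * m)) ^ m ∂μ ≤ m * ∫ p, |κ p| ^ m ∂μ →
        7 / 15 * (roundGB m 1 * ∫ p, |κ p| ^ m ∂μ) ≤ (-1) ^ m * ∫ p, K.gb p ∂μ ∧
        (-1) ^ m * ∫ p, K.gb p ∂μ ≤ 23 / 15 * (roundGB m 1 * ∫ p, |κ p| ^ m ∂μ)) ∧
    -- (4) integral pinching of the sectional curvatures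
    (∀ (m : ℕ) (M : Type) [MeasurableSpace M] (μ : Measure M) (K : CurvField m M) (κ η : M → ℝ),
      0 < m → Integrable K.gb μ → Integrable (fun p => κ p ^ m) μ →
      Integrable (fun p => η p ^ m) μ → (Even m ∨ ∀ p, 0 ≤ κ p) →
      (∀ p, 0 ≤ η p ∧ scal (K.e p) (K.R p) = -(κ p * (2 * m * (2 * m - 1))) ∧
        SecIn (K.R p) (-(κ p) - η p) (-(κ p) + η p)) →
      ∫ p, (4 / 3 * 10 ^ 6 * Real.sqrt (2 * m) * η p) ^ m ∂μ ≤ m * ∫ p, |κ p| ^ m ∂μ →
        7 / 15 * (roundGB m 1 * ∫ p, |κ p| ^ m ∂μ) ≤ (-1) ^ m * ∫ p, K.gb p ∂μ ∧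
        (-1) ^ m * ∫ p, K.gb p ∂μ ≤ 23 / 15 * (roundGB m 1 * ∫ p, |κ p| ^ m ∂μ)) ∧
    -- (5) pointwise pinching of order `n ^ (-1/2)`, at a point and integrated
    (∀ (m : ℕ) (V : Type) [NormedAddCommGroup V] [InnerProductSpace ℝ V]
      (e : OrthonormalBasis (Fin m × Bool) ℝ V) (R : V → V → V → V → ℝ) (a b : ℝ),
      0 < m → AlgCurv R → 0 < a → SecIn R (-b) (-a) →
      b - a ≤ 3 / 4 * (1 / 10 ^ 6) * a / Real.sqrt (2 * m) →
        4 / 5 * roundGB m a ≤ (-1) ^ m * gbc e R) ∧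
    (∀ (m : ℕ) (M : Type) [MeasurableSpace M] (μ : Measure M) (K : CurvField m M) (a b : M → ℝ),
      0 < m → Integrable K.gb μ → μ ≠ 0 →
      (∀ p, 0 < a p ∧ SecIn (K.R p) (-(b p)) (-(a p)) ∧
        b p - a p ≤ 3 / 4 * (1 / 10 ^ 6) * a p / Real.sqrt (2 * m)) →
        0 < (-1) ^ m * ∫ p, K.gb p ∂μ) := by
  refine ⟨?_, ?_, ?_, ?_, ?_, ?_⟩
  · intro m V _ _ e R κ D hm hR hD hs h4 h2
    exact Y499.GB.gbc_gen hm e hR hD hs h4 h2
  · intro m V _ _ e R κ η hm hR hη hs hsec
    exact Y499.GB.gbc_sec hm e hR hη hs hsec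
  · intro m M _ μ K κ D hm hg hκ hD hs h hle
    have hY : Integrable (fun p => (10 ^ 6 * D p / (2 * m)) ^ m) μ := by
      have : (fun p => (10 ^ 6 * D p / (2 * m)) ^ m) =
          fun p => (10 ^ 6 / (2 * m : ℝ)) ^ m * D p ^ m := by
        ext p; rw [← mul_pow]; congr 1; ring
      rw [this]
      exact hD.const_mul _
    exact Y499.GB.int_sign μ m hm K.gb κ (fun p => 10 ^ 6 * D p / (2 * m)) hg hκ hY
      (fun p => Y499.GB.gbc_gen hm (K.e p) (K.curv p) (h p).1 (h p).2.1 (h p).2.2.1 (h p).2.2.2)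
      hs hle
  · intro m M _ μ K κ η hm hg hκ hη hs h hle
    have hY : Integrable (fun p => (4 / 3 * 10 ^ 6 * Real.sqrt (2 * m) * η p) ^ m) μ := by
      simp only [mul_pow _ (η _)]
      exact hη.const_mul _
    exact Y499.GB.int_sign μ m hm K.gb κ (fun p => 4 / 3 * 10 ^ 6 * Real.sqrt (2 * m) * η p)
      hg hκ hY (fun p => Y499.GB.gbc_sec hm (K.e p) (K.curv p) (h p).1 (h p).2.1 (h p).2.2) hs hle
  · intro m V _ _ e R a b hm hR ha hs hab
    exact sec_pinched e hm hR ha hs hab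
  · intro m M _ μ K a b hm hg hμ h
    have h1 : ∀ p, 0 < (-1) ^ m * K.gb p := fun p =>
      lt_of_lt_of_le (by have := roundGB_pos (m := m) (h p).1; positivity)
        (sec_pinched (K.e p) hm (K.curv p) (h p).1 (h p).2.1 (h p).2.2)
    rw [← integral_const_mul, integral_pos_iff_support_of_nonneg (fun p => (h1 p).le)
      (hg.const_mul _)]
    have hs : Function.support (fun p => (-1) ^ m * K.gb p) = Set.univ := by
      ext p
      simpa only [Function.mem_support, Set.mem_univ, iff_true] using (h1 p).ne'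
    rw [hs]
    exact Measure.measure_univ_pos.2 hμ

end Pool.Agent.Results.MP_5a30bb_gt.IntegralPinching
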