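import Pool.Agent.Y489.SM.Gc

/-!
# The Hopf sign for submanifolds of space forms of nonpositive curvature

`gaussR β c` is the curvature tensor which the Gauss equation gives at a point of a submanifold with
second fundamental form `β` (with values in the normal space `W`) of a space of constant curvature
`-c`. For a unit normal `ξ` the matrix `shapeOp e β ξ` is that of the shape operator, and the
coefficient of degree `2 (m - k)` of its characteristic polynomial is the elementary symmetric
function of degree `2 k` of the principal curvatures.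

The Gauss–Bonnet–Chern integrand is expanded in powers of `c`; the terms are Gaussian means over the
normal space of the sums of the principal minors of even order of the shape operators. Where the
sectional curvatures of `gaussR β 0` are nonpositive, the sign of a term follows from the theorem of
Milnor and Chern (minors of order two and four), or from the asymptotic vectors of Otsuki (codimension
at most half the order: then no shape operator is definite on more than half of the dimensions of any
subspace on which the minor is taken).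
-/

set_option autoImplicit false

namespace Pool.Agent.Results.MP_5a30bb_gt.SpaceFormSubmanifolds

open Pool.Agent.W666.GB MeasureTheory

variable {V W : Type} [NormedAddCommGroup V] [InnerProductSpace ℝ V]
  [NormedAddCommGroup W] [InnerProductSpace ℝ W] {m : ℕ}

/-- second fundamental forms: symmetric bilinear maps from the tangent space `V` to the normal
space `W` -/
structure SecondForm (β : V → V → W) : Prop where
  symm : ∀ x y, β x y = β y x
  add : ∀ x x' y, β (x + x') y = β x y + β x' y
  smul : ∀ (t : ℝ) (x y : V), β (t • x) y = t • β x y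

/-- the curvature tensor of a submanifold with second fundamental form `β` of a space of constant
curvature `-c` (Gauss equation) -/
noncomputable def gaussR (β : V → V → W) (c : ℝ) (x y z w : V) : ℝ :=
  inner ℝ (β x z) (β y w) - inner ℝ (β x w) (β y z) -
    c * (inner ℝ x z * inner ℝ y w - inner ℝ x w * inner ℝ y z)

/-- the extrinsic sectional curvatures are nonpositive -/
def ExtNonpos (β : V → V → W) : Prop :=
  ∀ x y : V, inner ℝ (β x x) (β y y) - ‖β x y‖ ^ 2 ≤ 0

/-- the matrix of the shape operator in the normal direction `ξ` -/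
noncomputable def shapeOp (e : OrthonormalBasis (Fin m × Bool) ℝ V) (β : V → V → W) (ξ : W) :
    Matrix (Fin m × Bool) (Fin m × Bool) ℝ :=
  Matrix.of fun i j => inner ℝ ξ (β (e i) (e j))

/-- The criterion: for every `k` from `1` to `m` (only for `k = m` if `c = 0`), the sign of the
symmetric functions of degree `2 k` of the principal curvatures is `(-1) ^ k` in every normal
direction, or the extrinsic curvatures are nonpositive and `k ≤ 2` or the codimension is at most
`k`. -/
def Crit (e : OrthonormalBasis (Fin m × Bool) ℝ V) (β : V → V → W) (c : ℝ) : Prop :=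
  ∀ k : ℕ, 0 < k → k ≤ m → (c = 0 → k = m) →
    (∀ ξ : W, 0 ≤ (-1) ^ k * (shapeOp e β ξ).charpoly.coeff (2 * (m - k))) ∨
    ((k ≤ 2 ∨ Module.finrank ℝ W ≤ k) ∧ ExtNonpos β)

/-- austere second fundamental forms: the spectra of the shape operators are symmetric about
zero -/
def Austere (e : OrthonormalBasis (Fin m × Bool) ℝ V) (β : V → V → W) : Prop :=
  ∀ ξ : W, (shapeOp e β ξ).charpoly.comp (-Polynomial.X) = (shapeOp e β ξ).charpoly

/-- no shape operator is positive definite on a subspace of dimension larger than `m` -/
def Saddle (m : ℕ) (β : V → V → W) : Prop :=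
  ∀ (ξ : W) (U : Submodule ℝ V), (∀ x ∈ U, x ≠ 0 → 0 < inner ℝ ξ (β x x)) →
    Module.finrank ℝ U ≤ m

/-- the bilinear map -/
def SecondForm.map {β : V → V → W} (h : SecondForm β) : V →ₗ[ℝ] V →ₗ[ℝ] W :=
  LinearMap.mk₂ ℝ β h.add h.smul
    (fun x y y' => by rw [h.symm, h.add, h.symm y, h.symm y'])
    (fun t x y => by rw [h.symm, h.smul, h.symm y])

theorem SecondForm.map_apply {β : V → V → W} (h : SecondForm β) (x y : V) : h.map x y = β x y :=
  rfl

theorem crit_bound [FiniteDimensional ℝ W] (e : OrthonormalBasis (Fin m × Bool) ℝ V)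
    {β : V → V → W} (hs : SecondForm β) {c : ℝ} (hc : 0 ≤ c) (h : Crit e β c) :
    roundGB m c ≤ (-1) ^ m * gbc e (gaussR β c) := by
  refine Pool.Agent.Y489.SM.criterion e hs.map hs.symm hc fun k hk0 hkm hck => ?_
  rcases h k hk0 hkm hck with h1 | ⟨h1, hK⟩
  · exact Or.inl h1
  · exact Or.inr ⟨h1, fun x y => by
      rw [Pool.Agent.Y489.SM.gauss_sec hs.symm]
      exact hK x y⟩

/-- **The Hopf sign for submanifolds of space forms of curvature `-c ≤ 0`.** The criterion; it
holds for nonpositive extrinsic curvature in codimension at most three, for nonpositive extrinsic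
curvature in codimension at most `m` if `c = 0`, for austere submanifolds, and for `c = 0` if no
shape operator is definite on more than `m` dimensions; the integrated form. -/
theorem result :
    (∀ (m : ℕ) (V W : Type) [NormedAddCommGroup V] [InnerProductSpace ℝ V]
      [NormedAddCommGroup W] [InnerProductSpace ℝ W] [FiniteDimensional ℝ W]
      (e : OrthonormalBasis (Fin m × Bool) ℝ V) (β : V → V → W) (c : ℝ),
      SecondForm β → 0 ≤ c →
        (Crit e β c → roundGB m c ≤ (-1) ^ m * gbc e (gaussR β c)) ∧
        (Module.finrank ℝ W ≤ 3 → ExtNonpos β → Crit e β c) ∧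
        (Module.finrank ℝ W ≤ m → ExtNonpos β → Crit e β 0) ∧
        (Austere e β → Crit e β c) ∧
        (Saddle m β → Crit e β 0)) ∧
    (∀ (m : ℕ) (M : Type) [MeasurableSpace M] (μ : Measure M) (K : CurvField m M) (c : M → ℝ),
      (∀ p, 0 ≤ c p ∧ ∃ (q : ℕ) (β : K.V p → K.V p → EuclideanSpace ℝ (Fin q)),
        SecondForm β ∧ Crit (K.e p) β (c p) ∧ K.R p = gaussR β (c p)) →
      0 ≤ (-1) ^ m * ∫ p, K.gb p ∂μ ∧
        (Integrable K.gb μ → ∫ p, roundGB m (c p) ∂μ ≤ (-1) ^ m * ∫ p, K.gb p ∂μ)) := by
  refine ⟨?_, ?_⟩
  · intro m V W _ _ _ _ _ e β c hs hc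
    refine ⟨crit_bound e hs hc, fun hd hK k _ _ _ => Or.inr ⟨by omega, hK⟩,
      fun hd hK k _ _ hk => Or.inr ⟨Or.inr (by rw [hk rfl]; exact hd), hK⟩, ?_, ?_⟩
    · exact fun hev k _ hkm _ => Or.inl fun ξ =>
        Pool.Agent.Y489.SM.austere_coeff e hs.map hs.symm ξ (hev ξ) hkm
    · intro hp k _ _ hk
      refine Or.inl fun ξ => ?_
      rw [hk rfl]
      exact Pool.Agent.Y489.SM.saddle_coeff e hs.map hs.symm hp ξ
  · intro m M _ μ K c h
    refine Pool.Agent.Y489.SM.integrated μ K c (fun p => (h p).1) fun p => ?_
    obtain ⟨hc, q, β, hs, hcr, hR⟩ := h p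
    have h1 := crit_bound (K.e p) hs hc hcr
    rw [CurvField.gb, hR]
    exact h1

end Pool.Agent.Results.MP_5a30bb_gt.SpaceFormSubmanifolds
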