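import Pool.Agent.Y195.HF.Iff

/-!
# The sign of the Gauss–Bonnet–Chern integrand for curvature tensors which differ from a
nonpositive curvature operator by the curvature tensors of two skew forms

`SkewForm A` says that `A` is a skew-symmetric bilinear form on `V`, and `skewCurv A` is the
algebraic curvature tensor `2 A(x,y) A(z,w) + A(x,z) A(y,w) - A(x,w) A(y,z)` with sectional
curvatures `3 A(x,y)²` (for a complex structure `A`: the part of the curvature tensor of complex
hyperbolic space which is not of constant curvature).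

`TwoSkew δ R` says: for some skew forms `A` and `B` of arbitrary rank,
`-R = P + skewCurv A + skewCurv B`, where the curvature operator of `P` is at least `δ`.

(1) In every even dimension `2 m`, if `R` satisfies `TwoSkew δ`, then `(-1)^m` times the
Gauss–Bonnet–Chern integrand of `R` is at least its value for constant curvature `-δ`.
(2) The integrated forms, for fields of curvature tensors.
(3) In dimension four, `TwoSkew δ R` holds if and only if all sectional curvatures of `R` are at
most `-δ`. In every dimension, `TwoSkew δ` holds for the sum of a nonpositively curved tensor which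
lives on a subspace of dimension at most four and a tensor with curvature operator at most `-δ`.
(4) For three skew forms (1) fails in dimension six, even for `P = 0`.
-/

set_option autoImplicit false

namespace Pool.Agent.Results.MP_5a30bb_gt.TwoSkewForms

open Pool.Agent.W666.GB Pool.Agent.W669.HD Pool.Agent.Y195.HF

theorem result :
    (∀ (m : ℕ) (V : Type) [NormedAddCommGroup V] [InnerProductSpace ℝ V]
      (e : OrthonormalBasis (Fin m × Bool) ℝ V) (R : V → V → V → V → ℝ) (δ : ℝ),
      AlgCurv R → 0 ≤ δ → TwoSkew δ R → roundGB m δ ≤ (-1) ^ m * gbc e R) ∧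
    (∀ (m : ℕ) (M : Type) [MeasurableSpace M] (μ : MeasureTheory.Measure M) (K : CurvField m M),
      (∀ p, TwoSkew 0 (K.R p)) → 0 ≤ (-1) ^ m * ∫ p, K.gb p ∂μ) ∧
    (∀ (m : ℕ) (M : Type) [MeasurableSpace M] (μ : MeasureTheory.Measure M)
      [MeasureTheory.IsFiniteMeasure μ] (K : CurvField m M) (δ : ℝ),
      MeasureTheory.Integrable K.gb μ → 0 ≤ δ → (∀ p, TwoSkew δ (K.R p)) →
        roundGB m δ * μ.real Set.univ ≤ (-1) ^ m * ∫ p, K.gb p ∂μ) ∧
    (∀ (V : Type) [NormedAddCommGroup V] [InnerProductSpace ℝ V]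
      (_ : OrthonormalBasis (Fin 2 × Bool) ℝ V) (R : V → V → V → V → ℝ) (δ : ℝ),
      AlgCurv R → (TwoSkew δ R ↔ ∀ x y, R x y x y ≤ -(δ * unitT x y x y))) ∧
    (∀ (m : ℕ) (V : Type) [NormedAddCommGroup V] [InnerProductSpace ℝ V]
      (_ : OrthonormalBasis (Fin m × Bool) ℝ V) (R₁ R₂ : V → V → V → V → ℝ)
      (W : Submodule ℝ V) (δ : ℝ), AlgCurv R₁ → Module.finrank ℝ W ≤ 4 → LivesOn W R₁ →
      (∀ x y, R₁ x y x y ≤ 0) → OpNonneg (negT (addT R₂ fun x y z w => δ * unitT x y z w)) →
        TwoSkew δ (addT R₁ R₂)) ∧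
    (∃ R : E6 → E6 → E6 → E6 → ℝ, AlgCurv R ∧
      (∃ A : Fin 3 → E6 → E6 → ℝ, (∀ s, SkewForm (A s)) ∧
        ∀ x y z w, R x y z w = - ∑ s, skewCurv (A s) x y z w) ∧
      ∀ e : OrthonormalBasis (Fin 3 × Bool) ℝ E6, (-1) ^ 3 * gbc e R < 0) :=
  ⟨fun _ _ _ _ e _ _ hR hδ h => two_skew e hR hδ h,
    fun _ _ _ μ K h => field_skew μ K h,
    fun _ _ _ μ _ K _ hi hδ h => field_skew' μ K hi hδ h,
    fun _ _ _ e _ δ hR => four_iff e hR δ,
    fun _ _ _ _ e _ _ W _ h1 hW hL hs hn => sum_twoSkew e W h1 hW hL hs hn,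
    three_fail⟩

end Pool.Agent.Results.MP_5a30bb_gt.TwoSkewForms
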